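import Mathlib
import Pool.Agent.W5h23.G.Benf

set_option autoImplicit false

/-!
# Benford's law for all trajectories of the 3x+d maps

Every stretch of consecutive terms of absolute value at least `N ≥ |d|` of every trajectory of the
`3x+d` map (of a periodic one, in particular, or of a divergent one) is distributed in base `3`
according to Benford's law, with an error term which is uniform in `d` and in the trajectory.

Proof: along `q` consecutive terms the numbers `log_3 |T ^ t x| + t log_3 2` are constant modulo `1`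
up to `O(q |d| / N)`; if `q` is the denominator of a convergent of `log_3 2` the multiples of `log_3 2`
are well distributed, and the irrationality measure of `log_3 2` (starting file `H319R2.Measure`)
provides suitable `q`.
-/

namespace Pool.Agent.Results.MP_d0d59f_nt.BenfordLaw

/-- The 3x+d map on the integers. -/
def T (d x : ℤ) : ℤ := if x % 2 = 0 then x / 2 else (3 * x + d) / 2

/-- There is an absolute constant `C` such that for all odd `d`, all `N ≥ |d|`, all integers `x` and
all `L` such that the terms `x, T_d x, ..., T_d ^ (L-1) x` have absolute value at least `N`, the number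
of those among these `L` terms for which the fractional part of `log_3 |T_d ^ i x|` is in `[a, b)`
differs from `(b - a) L` by at most `C L ^ (13/14) + C L (|d| / N) ^ (1/14)`, for all
`0 ≤ a ≤ b ≤ 1`. -/
theorem result : ∃ C : ℝ, ∀ d : ℤ, d % 2 = 1 → ∀ N : ℝ, |(d : ℝ)| ≤ N → ∀ (x : ℤ) (L : ℕ),
    (∀ i < L, N ≤ |(((T d)^[i] x : ℤ) : ℝ)|) → ∀ a b : ℝ, 0 ≤ a → a ≤ b → b ≤ 1 →
    |(((Finset.range L).filter fun i => a ≤ Int.fract (Real.logb 3 |(((T d)^[i] x : ℤ) : ℝ)|) ∧
        Int.fract (Real.logb 3 |(((T d)^[i] x : ℤ) : ℝ)|) < b).card : ℝ) - (b - a) * L| ≤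
      C * (L : ℝ) ^ (13 / 14 : ℝ) + C * L * (|(d : ℝ)| / N) ^ (1 / 14 : ℝ) := by
  obtain ⟨C2, hC20, h2⟩ := Pool.Agent.W5h23.G.benford_segments3
  refine ⟨C2, ?_⟩
  intro d hd N hN x L hx a b ha hab hb
  have e3 : ((3 : ℤ) : ℝ) = 3 := by norm_num
  have hTT : T d = Pool.Agent.TH926.OSG.T 3 d := rfl
  have h := h2 d hd N hN L x hx a b ha hab hb
  have e : ((Finset.range L).filter fun i =>
      a ≤ Int.fract (Real.logb 3 |(((T d)^[i] x : ℤ) : ℝ)|) ∧
        Int.fract (Real.logb 3 |(((T d)^[i] x : ℤ) : ℝ)|) < b) =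
      ((Finset.range L).filter fun i =>
        Pool.Agent.W5h23.G.Man 3 a b ((Pool.Agent.TH926.OSG.T 3 d)^[i] x)) := by
    apply Finset.filter_congr
    intro i _
    unfold Pool.Agent.W5h23.G.Man
    rw [e3, hTT]
  rw [e]
  exact h

end Pool.Agent.Results.MP_d0d59f_nt.BenfordLaw
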