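import Pool.Agent.W5h47.TV.L

/-!
# The law of the `k`-th iterate of a `3x+d` map in total variation, at every time

Let `d` be odd and prime to `3`, let `T` be the `3x+d` map on the integers and let `n` be random,
uniform in `{1, ..., N}` or in `{-1, ..., -N}`. The theorem describes the law of the pair

  `(o_k(n), T^k n)`, `o_k(n)` the number of the odd terms among `n, T n, ..., T^(k-1) n`,

up to `ε` in total variation, for EVERY time `K₀ ≤ k ≤ κ log N`, for every fixed `κ < 2 / log (4 / 3)`.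
(`T^k n` is about `n (3 / 4) ^ (k / 2)` for almost all `n`, so these are all times until the size
`N ^ c`, with `c → 0` as `κ → 2 / log (4 / 3)`.)

1. `o_k` is binomial with parameters `k` and `1 / 2`; given `o_k = J` the iterate is distributed on the
   integers between `0` and `3 ^ J N / 2 ^ k` with a density proportional to `ρ m (y)`, which depends only
   on the class of the iterate `y` modulo `3 ^ m`: for bounded functions `G` of `J` and of the iterate the
   sum of the values of `G` is, up to `ε N`, the sum of `binom(k, J) / 3 ^ J * ρ m (y) G (J, y)` over all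
   `J` and all `0 < y ≤ 3 ^ J N / 2 ^ k`. Here `ρ m (y)` is the limit, as `t → ∞`, of `3 ^ m` times the
   density of the integers `x` with `T^t x = y` modulo `3 ^ m`.
2. The pair of `o_k` and of the class of `T^k n` modulo `Q`, `Q` prime to `3`, is binomial times uniform,
   up to `ε` in total variation, for all `k` and `Q` with `(3 / 4) ^ (k / 2) N ≥ Q N ^ δ`, so for all
   moduli up to almost the size of the iterate. For `Q = 2 ^ l` this says that the next `l` parities
   after the time `k` are independent fair coins, independent of `o_k`.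
3. Leading and trailing digits: if `log_B 3` is irrational, then the fractional part of `log_B |T^k n|`
   is uniform (Benford's law in the real base `B`), and independent of the class of `T^k n` modulo `Q`,
   for every `Q`; this class has a law which does not depend on `k` (uniform if `Q` is prime to `3`).

The parities of the first `log_2 N` terms are about independent for trivial reasons, but the sequence of
the parities of length `k > log_2 N` takes only `N` values, and the range of `k` here is `4.8` times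
larger. Proof: one stage of `t` steps with `4 ^ t ≤` size is described by the words of the
trajectories and the equidistribution of their offsets modulo the powers of `3` (`gam_all` in the
starting library), on average over `t`; every large `t` is a sum of two good times; the stages compose
in total variation, because starting points in a class modulo `3 ^ m` are allowed and the binomial
law changes little under translations.
-/

set_option autoImplicit false

namespace Pool.Agent.Results.MP_d0d59f_nt.LawOfIterates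

open Finset Filter Topology
open Pool.Agent.W5h47.TV

/-- The `3x+d` map on the integers. -/
def T (d x : ℤ) : ℤ := if x % 2 = 0 then x / 2 else (3 * x + d) / 2

/-- The number of odd terms among `x, T x, ..., T^(k-1) x`. -/
def odds (d : ℤ) (k : ℕ) (x : ℤ) : ℕ := ((range k).filter fun i => (T d)^[i] x % 2 = 1).card

/-- The sum of the values `G (o_k(s n), T^k (s n))`, `1 ≤ n ≤ N`. -/
noncomputable def total (d s : ℤ) (N k : ℕ) (G : ℕ → ℤ → ℝ) : ℝ :=
  ∑ n ∈ Icc 1 N, G (odds d k (s * (n : ℕ))) ((T d)^[k] (s * (n : ℕ)))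

theorem odds_eq (d : ℤ) (k : ℕ) (x : ℤ) : odds d k x = Pool.Agent.R344.SP.od d k x := by
  unfold odds Pool.Agent.R344.SP.od
  rw [card_filter]
  apply sum_congr rfl
  intro i _
  change (if (Pool.Agent.H499R2.CO.Tz d)^[i] x % 2 = 1 then 1 else 0) = _
  rcases Int.emod_two_eq_zero_or_one ((Pool.Agent.H499R2.CO.Tz d)^[i] x) with h | h
  · rw [h]; rfl
  · rw [h]; rfl

theorem total_eq (d s : ℤ) (N k : ℕ) (G : ℕ → ℤ → ℝ) : total d s N k G = Sg d s N k G := by
  unfold total Sg
  apply sum_congr rfl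
  intro n _
  rw [odds_eq]
  rfl

theorem result (d : ℤ) (hd : Odd d) (h3 : ¬ (3 : ℤ) ∣ d) :
    ∃ ρ : ℕ → ℤ → ℝ,
      -- the density: `ρ m y` is the limit of `3 ^ m` times the density of `{x : T^t x = y mod 3 ^ m}`
      (∀ (m : ℕ) (y : ℤ), Tendsto (fun t : ℕ =>
        (({x ∈ range (2 ^ t * 3 ^ m) | (3 : ℤ) ^ m ∣ (T d)^[t] (x : ℕ) - y}.card : ℕ) : ℝ) / 2 ^ t)
          atTop (𝓝 (ρ m y))) ∧
      -- 1. the law in total variation
      (∀ κ : ℝ, κ < 2 / Real.log (4 / 3) → ∀ ε : ℝ, 0 < ε → ∃ m₀ : ℕ, ∀ m ≥ m₀, ∃ K₀ N₀ : ℕ,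
        ∀ N ≥ N₀, ∀ k : ℕ, K₀ ≤ k → (k : ℝ) ≤ κ * Real.log N → ∀ s : ℤ, (s = 1 ∨ s = -1) →
        ∀ G : ℕ → ℤ → ℝ, (∀ j y, |G j y| ≤ 1) →
          |total d s N k G - ∑ J ∈ range (k + 1), (k.choose J : ℝ) / 3 ^ J *
            ∑ y ∈ Icc 1 (3 ^ J * N / 2 ^ k), ρ m (s * (y : ℕ)) * G J (s * (y : ℕ))| ≤ ε * N) ∧
      -- 2. large moduli prime to three
      (∀ δ : ℝ, 0 < δ → ∀ ε : ℝ, 0 < ε → ∃ N₀ : ℕ, ∀ N ≥ N₀, ∀ k Q : ℕ, 1 ≤ Q → Nat.Coprime 3 Q →
        Real.log (4 / 3) / 2 * k + Real.log Q ≤ (1 - δ) * Real.log N → ∀ s : ℤ, (s = 1 ∨ s = -1) →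
        ∀ G : ℕ → ℤ → ℝ, (∀ j y, |G j y| ≤ 1) → (∀ j y, G j (y + Q) = G j y) →
          |total d s N k G - N * ∑ J ∈ range (k + 1), (k.choose J : ℝ) / 2 ^ k *
            ((∑ y ∈ range Q, G J (y : ℕ)) / Q)| ≤ ε * N) ∧
      -- 3. leading and trailing digits
      (∀ Q : ℕ, 1 ≤ Q → ∃ π : ℤ → ℝ, (Nat.Coprime 3 Q → ∀ r, π r = 1 / Q) ∧
        ∀ B : ℝ, 1 < B → Irrational (Real.logb B 3) →
        ∀ κ : ℝ, κ < 2 / Real.log (4 / 3) → ∀ ε : ℝ, 0 < ε → ∃ K₀ N₀ : ℕ, ∀ N ≥ N₀, ∀ k : ℕ, K₀ ≤ k →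
        (k : ℝ) ≤ κ * Real.log N → ∀ s : ℤ, (s = 1 ∨ s = -1) → ∀ r : ℤ, ∀ a b : ℝ, 0 ≤ a → a ≤ b →
        b ≤ 1 → |({n : ℕ | 1 ≤ n ∧ n ≤ N ∧ (T d)^[k] (s * n) ≡ r [ZMOD Q] ∧
          a ≤ Int.fract (Real.logb B |(((T d)^[k] (s * n) : ℤ) : ℝ)|) ∧
          Int.fract (Real.logb B |(((T d)^[k] (s * n) : ℤ) : ℝ)|) < b}.ncard : ℝ)
            - (b - a) * π r * N| ≤ ε * N) := by
  classical
  have hd1 : d % 2 = 1 := Int.odd_iff.1 hd
  have hd3 : IsCoprime d 3 := by
    have hp : Prime (3 : ℤ) := Int.prime_three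
    exact ((Prime.coprime_iff_not_dvd hp).2 h3).symm
  have hT : T d = Pool.Agent.H499R2.CO.Tz d := rfl
  refine ⟨rho d, fun m y => rho_tendsto hd1 m y, fun κ hκ ε hε => ?_, fun δ hδ ε hε => ?_, fun Q hQ => ?_⟩
  · obtain ⟨m₀, h⟩ := lawN hd1 hd3 hκ hε
    refine ⟨m₀, fun m hm => ?_⟩
    obtain ⟨K₀, N₀, h⟩ := h m hm
    refine ⟨K₀, N₀, fun N hN k hkK hk s hs G hG => ?_⟩
    rw [total_eq]
    exact h N hN k hkK hk s hs G hG
  · obtain ⟨N₀, h⟩ := level hd1 hd3 hδ hε
    refine ⟨N₀, fun N hN k Q hQ hc hkQ s hs G hG hper => ?_⟩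
    have hper' : ∀ j x z, G j (x + Q * z) = G j x := by
      intro j x z
      have hp : Function.Periodic (G j) (Q : ℤ) := fun y => hper j y
      have := hp.int_mul z x
      rw [← this]
      congr 1
      push_cast
      ring
    have h1 := h N hN k Q hQ hc hkQ s hs G hG hper'
    rw [total_eq]
    rw [bin_choose] at h1
    exact h1
  · -- the stationary law
    obtain ⟨v, M, hM3, hQM⟩ := Nat.exists_eq_pow_mul_and_not_dvd (n := Q) (by omega) 3 (by norm_num)
    have hM1 : 1 ≤ M := by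
      rcases Nat.eq_zero_or_pos M with h | h
      · rw [h, mul_zero] at hQM; omega
      · exact h
    have hc3 : Nat.Coprime 3 M := (Nat.Prime.coprime_iff_not_dvd (by norm_num)).2 hM3
    have hQ0 : (Q : ℤ) ≠ 0 := by
      have : Q ≠ 0 := by omega
      exact_mod_cast this
    have hQR : (0 : ℝ) < Q := by exact_mod_cast hQ
    have hgper : ∀ a x z : ℤ, (fun x : ℤ => if x ≡ a [ZMOD Q] then (1 : ℝ) else 0) (x + (Q : ℕ) * z)
        = (fun x : ℤ => if x ≡ a [ZMOD Q] then (1 : ℝ) else 0) x := by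
      intro a x z
      have : (x + Q * z ≡ a [ZMOD Q]) = (x ≡ a [ZMOD Q]) := by
        unfold Int.ModEq
        rw [Int.add_mul_emod_self_left]
      simp only [this]
    have hst : ∀ a : ℤ, ∃ c : ℝ, ∀ κ : ℝ, κ < 2 / Real.log (4 / 3) → ∀ ε : ℝ, 0 < ε →
        ∃ K₀ N₀ : ℕ, ∀ N ≥ N₀, ∀ k : ℕ, K₀ ≤ k → (k : ℝ) ≤ κ * Real.log N → ∀ s : ℤ, (s = 1 ∨ s = -1) →
          |Pool.Agent.W5h47.SL.St d s N k (fun x => if x ≡ a [ZMOD Q] then 1 else 0) - c * N| ≤ ε * N := by
      intro a
      apply Pool.Agent.W5h47.SL.stat hd1 hd3 (fun x => by split_ifs <;> simp) hM1 hc3 (a := v)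
      rw [← hQM]
      exact hgper a
    choose c hc using hst
    -- the case of moduli prime to three
    have hcop : Nat.Coprime 3 Q → ∀ r, c (r % Q) = 1 / Q := by
      intro hcQ r
      have hmn : Pool.Agent.R344.SP.mn (fun x => if x ≡ r % Q [ZMOD Q] then (1 : ℝ) else 0) Q = 1 / Q := by
        unfold Pool.Agent.R344.SP.mn
        congr 1
        have hr0 := Int.emod_nonneg r hQ0
        have hr1 := Int.emod_lt_of_pos r (by positivity : (0 : ℤ) < Q)
        rw [sum_eq_single (r % Q).toNat]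
        · dsimp only
          rw [if_pos]
          unfold Int.ModEq
          rw [Int.toNat_of_nonneg hr0]
        · intro i hi hne
          rw [mem_range] at hi
          dsimp only
          rw [if_neg]
          intro hmod
          apply hne
          unfold Int.ModEq at hmod
          rw [Int.emod_emod_of_dvd _ dvd_rfl, Int.emod_eq_of_lt (by positivity) (by exact_mod_cast hi)] at hmod
          omega
        · intro hni
          exfalso
          apply hni
          rw [mem_range]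
          omega
      have key : ∀ ε : ℝ, 0 < ε → |c (r % Q) - 1 / Q| ≤ 2 * ε := by
        intro ε hε
        obtain ⟨K₀, N₁, h1⟩ := hc (r % Q) 1 Pool.Agent.W5h47.SL.one_lt_crit' ε hε
        obtain ⟨N₂, h2⟩ := Pool.Agent.W5h47.SL.per_law hd1 hd3 Pool.Agent.W5h47.SL.one_lt_crit' hε hQ hcQ
        obtain ⟨N, hN⟩ : ∃ N : ℕ, N₁ ≤ N ∧ N₂ ≤ N ∧ 1 ≤ N ∧ ((K₀ : ℕ) : ℝ) ≤ 1 * Real.log N := by
          have h1 : Filter.Tendsto (fun N : ℕ => Real.log (N : ℝ)) Filter.atTop Filter.atTop :=
            Real.tendsto_log_atTop.comp tendsto_natCast_atTop_atTop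
          obtain ⟨N, hN⟩ := (((Filter.eventually_ge_atTop N₁).and (Filter.eventually_ge_atTop N₂)).and
            ((Filter.eventually_ge_atTop 1).and (h1.eventually_ge_atTop ((K₀ : ℕ) : ℝ)))).exists
          exact ⟨N, hN.1.1, hN.1.2, hN.2.1, by rw [one_mul]; exact hN.2.2⟩
        obtain ⟨hNa, hNb, hNc, hNd⟩ := hN
        have g1 := h1 N hNa K₀ le_rfl hNd 1 (Or.inl rfl)
        have g2 := h2 N hNb K₀ hNd 1 (Or.inl rfl) (fun x => if x ≡ r % Q [ZMOD Q] then 1 else 0)
          (fun x => by split_ifs <;> simp) (hgper (r % Q))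
        rw [hmn] at g2
        have hN0 : (0 : ℝ) < N := by exact_mod_cast hNc
        have b1 := abs_le.1 g1
        have b2 := abs_le.1 g2
        have h3 : |c (r % Q) - 1 / Q| * N ≤ 2 * ε * N := by
          rw [← abs_of_pos hN0, ← abs_mul, abs_of_pos hN0, abs_le]
          constructor <;> linarith [b1.1, b1.2, b2.1, b2.2]
        exact le_of_mul_le_mul_right h3 hN0
      have h0 : |c (r % Q) - 1 / Q| ≤ 0 := by
        apply le_of_forall_pos_le_add
        intro ε hε
        have := key (ε / 2) (by positivity)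
        linarith
      have := abs_nonpos_iff.1 h0
      linarith
    refine ⟨fun r => c (r % Q), hcop, fun B hB hirr κ hκ ε hε => ?_⟩
    obtain ⟨K₁, N₁, hdig⟩ := digits hd1 hd3 hκ hB hirr (ε := ε / 2) (by positivity) hQ
    choose K₂ N₂ hKN using fun a => hc a κ hκ (ε / 2) (by positivity)
    refine ⟨max K₁ (∑ i ∈ range Q, K₂ (i : ℕ)), max N₁ (∑ i ∈ range Q, N₂ (i : ℕ)),
      fun N hN k hKk hk s hs r a b ha hab hb => ?_⟩
    have hr0 := Int.emod_nonneg r hQ0
    have hr1 := Int.emod_lt_of_pos r (by positivity : (0 : ℤ) < Q)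
    have hmem : (r % Q).toNat ∈ range Q := by rw [mem_range]; omega
    have hcast : (((r % Q).toNat : ℕ) : ℤ) = r % Q := Int.toNat_of_nonneg hr0
    have hK : K₂ (r % Q) ≤ k := by
      have := single_le_sum (f := fun i : ℕ => K₂ (i : ℕ)) (fun i _ => Nat.zero_le _) hmem
      rw [hcast] at this
      exact this.trans ((le_max_right _ _).trans hKk)
    have hNN : N₂ (r % Q) ≤ N := by
      have := single_le_sum (f := fun i : ℕ => N₂ (i : ℕ)) (fun i _ => Nat.zero_le _) hmem
      rw [hcast] at this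
      exact this.trans ((le_max_right _ _).trans hN)
    have h1 := hKN (r % Q) N hNN k hK hk s hs
    have h2 := hdig N ((le_max_left _ _).trans hN) k ((le_max_left _ _).trans hKk) hk s hs r a b ha hab hb
    have e1 : Pool.Agent.W5h47.SL.St d s N k (fun x => if x ≡ r % Q [ZMOD Q] then 1 else 0)
        = (((Icc 1 N).filter (fun n : ℕ => (Pool.Agent.H499R2.CO.Tz d)^[k] (s * (n : ℕ)) ≡ r [ZMOD Q])).card : ℝ) := by
      unfold Pool.Agent.W5h47.SL.St
      rw [card_filter]
      push_cast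
      apply sum_congr rfl
      intro n _
      have : ((Pool.Agent.H499R2.CO.Tz d)^[k] (s * (n : ℕ)) ≡ r % Q [ZMOD Q])
          = ((Pool.Agent.H499R2.CO.Tz d)^[k] (s * (n : ℕ)) ≡ r [ZMOD Q]) := by
        unfold Int.ModEq
        rw [Int.emod_emod_of_dvd _ dvd_rfl]
      simp only [this]
    rw [e1] at h1
    have e2 : {n : ℕ | 1 ≤ n ∧ n ≤ N ∧ (T d)^[k] (s * n) ≡ r [ZMOD Q] ∧
          a ≤ Int.fract (Real.logb B |(((T d)^[k] (s * n) : ℤ) : ℝ)|) ∧
          Int.fract (Real.logb B |(((T d)^[k] (s * n) : ℤ) : ℝ)|) < b}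
        = ((((Icc 1 N).filter (fun n : ℕ => (Pool.Agent.H499R2.CO.Tz d)^[k] (s * (n : ℕ)) ≡ r [ZMOD Q])).filter
            (fun n : ℕ => a ≤ Int.fract (Real.logb B |(((Pool.Agent.H499R2.CO.Tz d)^[k] (s * (n : ℕ)) : ℤ) : ℝ)|) ∧
              Int.fract (Real.logb B |(((Pool.Agent.H499R2.CO.Tz d)^[k] (s * (n : ℕ)) : ℤ) : ℝ)|) < b)
              : Finset ℕ) : Set ℕ) := by
      ext n
      rw [hT]
      simp only [Set.mem_ofPred_eq, coe_filter, mem_filter, mem_Icc, and_assoc]
    rw [e2, Set.ncard_coe_finset]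
    set C1 : ℝ := (((Icc 1 N).filter (fun n : ℕ =>
      (Pool.Agent.H499R2.CO.Tz d)^[k] (s * (n : ℕ)) ≡ r [ZMOD Q])).card : ℝ) with hC1
    have h3 : |(b - a) * C1 - (b - a) * c (r % Q) * N| ≤ ε / 2 * N := by
      have e3 : (b - a) * C1 - (b - a) * c (r % Q) * N = (b - a) * (C1 - c (r % Q) * N) := by ring
      rw [e3, abs_mul]
      have h4 : |b - a| ≤ 1 := by rw [abs_le]; constructor <;> linarith
      calc |b - a| * |C1 - c (r % Q) * N| ≤ 1 * (ε / 2 * N) := mul_le_mul h4 h1 (abs_nonneg _) zero_le_one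
        _ = _ := one_mul _
    have b1 := abs_le.1 h2
    have b2 := abs_le.1 h3
    rw [abs_le]
    constructor <;> linarith [b1.1, b1.2, b2.1, b2.2]

end Pool.Agent.Results.MP_d0d59f_nt.LawOfIterates
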