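import Mathlib
import Pool.Agent.W5h23.G.Code

set_option autoImplicit false

/-!
# The parity words along the trajectories of `3x+d` cannot be compressed

Let `x, T x, ..., T ^ (L-1) x` be different integers (as is the case for all `L` if the trajectory of `x`
under `T = T_d` is unbounded), and let `Y` be the number of them which lie in `[-X, X]`. Then every binary
code for the words of length `n` (with arbitrary real code word lengths which satisfy Kraft's inequality)
gives the parity words of length `n` which are read along the trajectory, at the first `L + J n` times, a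
total length of at least `Y log_2 Y / J`, where `2 ^ (J n) > 2 X`. So an unbounded trajectory which
contains at least `δ L` elements of `[-L ^ C, L ^ C]` among its first `L` elements has positive entropy
on all scales up to `C log_2 L`, bounded from below in terms of `C` and `δ` only, uniformly in `d`: its
parities cannot be predicted on these scales with few errors. All bounds are explicit.

Proof: the parity words of length `J n` of different integers in `[-X, X]` are different, and the product
of `J` copies of the code is a code for them; each word of length `n` along the trajectory is used at most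
`J` times.
-/

namespace Pool.Agent.Results.MP_d0d59f_nt.NoCompression

/-- The map `T_d` on the integers: `x / 2` for even `x`, `(3 x + d) / 2` for odd `x`. -/
def T (d x : ℤ) : ℤ := if x % 2 = 0 then x / 2 else (3 * x + d) / 2

/-- The parity word `x mod 2, T x mod 2, ..., T ^ (n-1) x mod 2` of length `n` of `x`. -/
def word (d : ℤ) (n : ℕ) (x : ℤ) : Fin n → ℤ := fun j => (T d)^[(j : ℕ)] x % 2

/-- `ℓ w ≥ 0`, `w` in `{0, 1} ^ n`, satisfy Kraft's inequality: the sum of `2 ^ (-ℓ w)` is at most `1`
(as for the code word lengths of a uniquely decodable binary code for the words of length `n`). -/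
def IsCode (n : ℕ) (ℓ : (Fin n → ℤ) → ℝ) : Prop :=
  (∀ w, 0 ≤ ℓ w) ∧ ∑ w ∈ Fintype.piFinset (fun _ : Fin n => ({0, 1} : Finset ℤ)), (2 : ℝ) ^ (-ℓ w) ≤ 1

/-- Let `d` be odd, let `x, T x, ..., T ^ (L-1) x` be different, `T = T_d`, let `Y` be the number of
`i < L` with `|T ^ i x| ≤ X`, and let `2 ^ (J n) > 2 X`. Then for every code for the words of length
`n` the sum over `i < L + J n` of the code word lengths of the parity words of `T ^ i x` is at least
`Y log_2 Y / J`. -/
theorem result (d : ℤ) (hd : d % 2 = 1) (x : ℤ) (L : ℕ)
    (hx : Set.InjOn (fun i => (T d)^[i] x) (Set.Iio L)) (X : ℝ) (n J : ℕ)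
    (hJ : 2 * X < 2 ^ (J * n)) (ℓ : (Fin n → ℤ) → ℝ) (hℓ : IsCode n ℓ) :
    (((Finset.range L).filter fun i => |(((T d)^[i] x : ℤ) : ℝ)| ≤ X).card : ℝ) *
        Real.logb 2 ((Finset.range L).filter fun i => |(((T d)^[i] x : ℤ) : ℝ)| ≤ X).card ≤
      J * ∑ i ∈ Finset.range (L + J * n), ℓ (word d n ((T d)^[i] x)) := by
  have hl2 : 0 < Real.log 2 := Real.log_pos (by norm_num)
  have hpow : ∀ u : ℝ, (2 : ℝ) ^ (-u) = Real.exp (-(Real.log 2 * u)) := by
    intro u
    rw [Real.rpow_def_of_pos (by norm_num)]
    congr 1
    ring
  have h1 := Pool.Agent.W5h23.G.code_seg (a := 3) (b := d) ⟨by norm_num, by norm_num, hd⟩ x L hx hJ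
    (fun w => Real.log 2 * ℓ w)
    (fun w _ => mul_nonneg hl2.le (hℓ.1 w)) (by
      have h2 := hℓ.2
      simp_rw [hpow] at h2
      exact h2)
  rw [← Finset.mul_sum] at h1
  rw [Real.logb, ← mul_div_assoc, div_le_iff₀ hl2]
  refine h1.trans (le_of_eq ?_)
  have e : (∑ i ∈ Finset.range (L + J * n), ℓ (Pool.Agent.W5h23.G.wd (Pool.Agent.TH926.OSG.T 3 d) n
      ((Pool.Agent.TH926.OSG.T 3 d)^[i] x))) =
      ∑ i ∈ Finset.range (L + J * n), ℓ (word d n ((T d)^[i] x)) := rfl
  rw [e]
  ring

end Pool.Agent.Results.MP_d0d59f_nt.NoCompression
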