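import Mathlib
import Pool.Agent.W5h23.G.Maps

set_option autoImplicit false

/-!
# The leading binary digits of the odd terms of the trajectories of `3x+d`

The odd terms of a trajectory of `T_d` are the trajectory of the Syracuse map `x ↦ (3 x + d) / 2 ^ v`
(`2 ^ v` the exact power of two in `3 x + d`). As long as its terms are different they obey Benford's law
in base two, with a power saving in the number of the terms, uniformly in `d`: for example the proportion
of the terms the binary expansion of which starts with `11` is `log_2 (4/3) + O((|d| / K) ^ (1/28))`.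
In particular this holds for the odd terms of every unbounded trajectory.
-/

namespace Pool.Agent.Results.MP_d0d59f_nt.SyracuseBinaryBenford

/-- The Syracuse map `x ↦ (3 x + d) / 2 ^ v`, `2 ^ v` being the exact power of two which divides
`3 x + d` (and `v = 0` if `3 x + d = 0`). For odd `x` with `3 x + d ≠ 0` it is the first odd iterate of
`x` under `T_d` after `x`. -/
def S (d x : ℤ) : ℤ := (3 * x + d) / 2 ^ padicValInt 2 (3 * x + d)

/-- The binary mantissa (the fractional part of `log_2 |m|`) is in `[A, B)`. -/
def Mantissa (A B : ℝ) (m : ℤ) : Prop :=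
  A ≤ Int.fract (Real.logb 2 |(m : ℝ)|) ∧ Int.fract (Real.logb 2 |(m : ℝ)|) < B

open Classical in
/-- There is a constant `c` such that for every odd `d`, every integer `x` and every `K` such that
`x, S x, ..., S ^ (K-1) x`, `S = S_d`, are different, and all `0 ≤ A ≤ B ≤ 1`, the number of those terms
with a binary mantissa in `[A, B)` differs from `(B - A) K` by at most
`c K ^ (27/28) |d| ^ (1/28)`. -/
theorem result : ∃ c : ℝ, ∀ d : ℤ, d % 2 = 1 → ∀ (x : ℤ) (K : ℕ),
    Set.InjOn (fun i => (S d)^[i] x) (Set.Iio K) → ∀ A B : ℝ, 0 ≤ A → A ≤ B → B ≤ 1 →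
    |(((Finset.range K).filter fun i => Mantissa A B ((S d)^[i] x)).card : ℝ) - (B - A) * K| ≤
      c * (K : ℝ) ^ (27 / 28 : ℝ) * |(d : ℝ)| ^ (1 / 28 : ℝ) := by
  obtain ⟨c, hc⟩ := Pool.Agent.W5h23.G.benford_Syr
  refine ⟨c, ?_⟩
  intro d hd x K hK A B hA hAB hB
  convert hc d hd x K hK A B hA hAB hB using 6
  exact Iff.rfl

end Pool.Agent.Results.MP_d0d59f_nt.SyracuseBinaryBenford
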